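import Mathlib
import Pool.Agent.H560.AR.Stm

set_option autoImplicit false

namespace Pool.Agent.H348.AR

open Polynomial

/-- Every irreducible `P` which does not divide `m` divides `F + m t ^ 2` for exactly one class of `t`. -/
theorem rtQ_aux (K : Type) [Field K] [Fintype K] [CharP K 2] (m F P : K[X])
    (hP : P.Monic) (hPi : Irreducible P) (hne : ¬ P ∣ m) :
    ∃ r : K[X], r.degree < P.degree ∧ ∀ t : K[X], P ∣ F + m * t ^ 2 ↔ P ∣ t - r := by
  have hfact : Fact (Irreducible P) := ⟨hPi⟩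
  have hfin : Module.Finite K (AdjoinRoot P) := (AdjoinRoot.powerBasis hPi.ne_zero).finite
  have hfinE : Finite (AdjoinRoot P) := Module.finite_of_finite K
  have hchar : CharP (AdjoinRoot P) 2 :=
    charP_of_injective_algebraMap (algebraMap K (AdjoinRoot P)).injective 2
  have hexp : ExpChar (AdjoinRoot P) 2 := ExpChar.prime Nat.prime_two
  have hM : AdjoinRoot.mk P m ≠ 0 := by
    intro h
    rw [AdjoinRoot.mk_eq_zero] at h
    exact hne h
  have hinj : Function.Injective (fun x : AdjoinRoot P => x ^ 2) := frobenius_inj (AdjoinRoot P) 2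
  have hsurj : Function.Surjective (fun x : AdjoinRoot P => x ^ 2) :=
    Finite.surjective_of_injective hinj
  obtain ⟨t0, ht0⟩ := hsurj (AdjoinRoot.mk P F / AdjoinRoot.mk P m)
  obtain ⟨r0, hr0⟩ := AdjoinRoot.mk_surjective t0
  have hr : AdjoinRoot.mk P (r0 %ₘ P) = t0 := by
    rw [← hr0]
    have h1 := modByMonic_add_div r0 P
    have h2 := congrArg (AdjoinRoot.mk P) h1
    rw [map_add, map_mul, AdjoinRoot.mk_self, zero_mul, add_zero] at h2
    exact h2
  refine ⟨r0 %ₘ P, degree_modByMonic_lt _ hP, fun t => ?_⟩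
  have h2 : (2 : AdjoinRoot P) = 0 := by exact_mod_cast CharP.cast_eq_zero (AdjoinRoot P) 2
  rw [← AdjoinRoot.mk_eq_zero, ← AdjoinRoot.mk_eq_zero, map_sub, hr, sub_eq_zero, map_add,
    map_mul, map_pow]
  have ht0' : t0 ^ 2 * AdjoinRoot.mk P m = AdjoinRoot.mk P F := by
    have h3 : t0 ^ 2 = AdjoinRoot.mk P F / AdjoinRoot.mk P m := ht0
    rw [h3, div_mul_cancel₀ _ hM]
  constructor
  · intro h
    apply hinj
    show AdjoinRoot.mk P t ^ 2 = t0 ^ 2
    apply mul_right_cancel₀ hM
    linear_combination h - ht0' - AdjoinRoot.mk P F * h2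
  · intro h
    rw [h]
    linear_combination ht0' + (AdjoinRoot.mk P F) * h2

theorem rtQ : Pool.Agent.H560.AR.S_rtQ := by
  intro K _ _ _ Q F P hP hPi hne
  exact rtQ_aux K Q F P hP hPi hne

end Pool.Agent.H348.AR
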